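import Mathlib.Data.Nat.Basic

/-! Kernel computation for weight functions on windows of the pair process of noisy majority
voting: ternary trees of natural numbers, coefficients packed into one natural number. -/

set_option autoImplicit false

namespace Pool.Agent.MJ6

/-- the three states of a site of the pair process: both `0`, different, both `1` -/
inductive S : Type
  | z : S
  | s : S
  | o : S

/-- ternary trees: functions of a window of symbols -/
inductive T : Type
  | l : ℕ → T
  | n : T → T → T → T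

/-- the median of three symbols -/
def med : S → S → S → S
  | .z, .z, _ => .z
  | .z, .s, .z => .z
  | .z, .s, _ => .s
  | .z, .o, x => x
  | .s, .z, .z => .z
  | .s, .z, _ => .s
  | .s, .s, _ => .s
  | .s, .o, .o => .o
  | .s, .o, _ => .s
  | .o, .z, x => x
  | .o, .s, .o => .o
  | .o, .s, _ => .s
  | .o, .o, _ => .o

/-- child of a node -/
def T.ch : T → S → T
  | .l x, _ => .l x
  | .n a _ _, .z => a
  | .n _ b _, .s => b
  | .n _ _ c, .o => c

/-- the number stored at a leaf -/
def T.val : T → ℕ
  | .l x => x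
  | .n _ _ _ => 0

/-- evaluate a number, then continue -/
def seqN {α : Type} (x : ℕ) (k : ℕ → α) : α :=
  Nat.rec (motive := fun _ => α) (k 0) (fun m _ => k (Nat.succ m)) x

/-- evaluate all leaves, then continue -/
def T.force {α : Type} : T → (T → α) → α
  | .l x, k => seqN x fun x' => k (.l x')
  | .n a b c, k => a.force fun a' => b.force fun b' => c.force fun c' => k (.n a' b' c')

/-- leafwise `E * a + D * c + R * x` -/
def T.cmb (E D R : ℕ) : T → T → T → T
  | .l a, .l c, .l x => .l (E * a + D * c + R * x)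
  | .n a1 a2 a3, .n c1 c2 c3, .n x1 x2 x3 =>
    .n (T.cmb E D R a1 c1 x1) (T.cmb E D R a2 c2 x2) (T.cmb E D R a3 c3 x3)
  | a, _, _ => a

/-- the transformed tree, all leaves evaluated, then continue -/
def T.trK {α : Type} (E D R : ℕ) : T → (T → α) → α
  | .l x, k => k (.l x)
  | .n a b c, k => T.trK E D R a fun a' => T.trK E D R b fun b' => T.trK E D R c fun c' =>
      (T.n (T.cmb E D R a' c' a') (T.cmb E D R a' c' b') (T.cmb E D R a' c' c')).force k

/-- the least `z ≥ z0` such that the first `k` digits of `c` are at most `z` times those of `M` -/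
def need (X : ℕ) : ℕ → ℕ → ℕ → ℕ → ℕ
  | 0, _, _, z0 => z0
  | k + 1, c, M, z0 => seqN (max z0 ((c % X + M % X - 1) / (M % X))) fun z =>
      seqN (c / X) fun c' => seqN (M / X) fun M' => need X k c' M' z

/-- leafwise `need` -/
def T.need (X k M : ℕ) : T → T
  | .l c => .l (MJ6.need X k c M 0)
  | .n a b c => .n (a.need X k M) (b.need X k M) (c.need X k M)

/-- decode a tree of depth `d` from digits in base `2 ^ 22` -/
def dec : ℕ → ℕ → T
  | 0, x => .l x
  | d + 1, x => .n (dec d (x % 2 ^ (22 * 3 ^ d))) (dec d (x / 2 ^ (22 * 3 ^ d) % 2 ^ (22 * 3 ^ d)))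
      (dec d (x / 2 ^ (22 * 3 ^ d) / 2 ^ (22 * 3 ^ d)))

/-- the last symbols of the window -/
def fin2 (q B : T) (p2 p1 : S) (ps A : ℕ) (x : S) : Bool :=
  Nat.ble ((q.ch (med p2 p1 x)).val + A) (ps + (B.ch x).val)

/-- the main check, one symbol at a time: `p2, p1` the last two symbols, `q` the tree of needs,
`P` the weight function, `A` the left and `B` the right potential -/
def walk (tau : ℕ) : ℕ → T → T → T → T → S → S → S → Bool
  | 0, q, P, A, B, p2, p1, st =>
    let a := A.val + (match st with | .s => tau | _ => 0)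
    fin2 q B p2 p1 P.val a .z && fin2 q B p2 p1 P.val a .s && fin2 q B p2 p1 P.val a .o
  | n + 1, q, P, A, B, p2, p1, st =>
    walk tau n (q.ch (med p2 p1 .z)) (P.ch .z) (A.ch .z) (B.ch .z) p1 .z st &&
    walk tau n (q.ch (med p2 p1 .s)) (P.ch .s) (A.ch .s) (B.ch .s) p1 .s st &&
    walk tau n (q.ch (med p2 p1 .o)) (P.ch .o) (A.ch .o) (B.ch .o) p1 .o st

/-- all three symbols -/
def all3 (f : S → Bool) : Bool := f .z && f .s && f .o

/-- packed kernel weights -/
def wE (w X a b : ℕ) : ℕ := (a + b * X) * (1 + X ^ (w + 1))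

/-- packed kernel weights -/
def wD (w X : ℕ) : ℕ := 100 * (1 + X) * (1 + X ^ (w + 1))

/-- packed kernel weights -/
def wR (X K a b : ℕ) : ℕ := (100 * K - a) + (100 * K - b) * X

/-- the tree has depth `d` and all its leaves are less than `m` -/
def T.okB (m : ℕ) : ℕ → T → Bool
  | 0, .l x => Nat.blt x m
  | d + 1, .n a b c => T.okB m d a && T.okB m d b && T.okB m d c
  | _, _ => false

/-- the first `k` digits are positive -/
def posD (X : ℕ) : ℕ → ℕ → Bool
  | 0, _ => true
  | k + 1, M => Nat.blt 0 (M % X) && posD X k (M / X)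

/-- the symbol by symbol check over all windows -/
def chkW (w tau : ℕ) (q P B : T) : Bool :=
  all3 fun u0 => all3 fun u1 => all3 fun u2 => all3 fun u3 =>
    walk tau (w - 3) ((q.ch (med u0 u1 u2)).ch (med u1 u2 u3)) (((P.ch u1).ch u2).ch u3)
      ((((B.ch u0).ch u1).ch u2).ch u3) (((B.ch u1).ch u2).ch u3) u2 u3 u3

/-- the whole check for one patch of noise parameters -/
def Chk (w X K a b tau : ℕ) (P B : T) : Bool :=
  seqN (wE w X a b) fun E => seqN (wD w X) fun D => seqN (wR X K a b) fun R =>
  seqN ((E + D + R) ^ w) fun M =>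
  P.force fun P => B.force fun B =>
  P.okB (2 ^ 22) w && B.okB (2 ^ 22) (w + 1) && posD X ((w + 1) * (w + 1)) M &&
  Nat.blt ((200 * (K + 2) + a + b) ^ w * 2 ^ 22) X && Nat.ble a (100 * K) && Nat.ble b (100 * K) &&
  P.trK E D R fun q => (q.need X ((w + 1) * (w + 1)) M).force fun q => chkW w tau q P B

end Pool.Agent.MJ6
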