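import Pool.Agent.MJ6.Kron

/-! Soundness of the whole check. -/

set_option autoImplicit false

namespace Pool.Agent.MJ6

open Polynomial

/-- bonus for a site where the two processes differ -/
def tt (tau : ℕ) : S → ℕ
  | .s => tau
  | _ => 0

theorem all3_spec {f : S → Bool} (h : all3 f = true) (x : S) : f x = true := by
  simp only [all3, Bool.and_eq_true] at h
  cases x
  · exact h.1.1
  · exact h.1.2
  · exact h.2

theorem walk_spec {tau : ℕ} : ∀ (n : ℕ) (q P A B : T) (p2 p1 st : S), q.dp (n + 1) → P.dp n →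
    A.dp n → B.dp (n + 1) → walk tau n q P A B p2 p1 st = true → ∀ g h : ℕ → S,
    h 0 = med p2 p1 (g 0) → h 1 = med p1 (g 0) (g 1) →
    (∀ k, h (k + 2) = med (g k) (g (k + 1)) (g (k + 2))) →
    q.ev h + (A.ev g + tt tau st) ≤ P.ev g + B.ev g
  | 0, q, P, A, B, p2, p1, st, hq, hP, hA, hB, hc, g, h, h0, _, _ => by
    have key : ∀ x, fin2 q B p2 p1 P.val (A.val + tt tau st) x = true := by
      intro x
      simp only [walk, Bool.and_eq_true] at hc
      cases x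
      · exact hc.1.1
      · exact hc.1.2
      · exact hc.2
    have k := key (g 0)
    rw [fin2, Nat.ble_eq] at k
    rw [T.ev_ch hq, T.ev_ch hB, T.ev_zero (T.ch_dp hq _), T.ev_zero (T.ch_dp hB _),
      T.ev_zero hP, T.ev_zero hA, h0]
    exact k
  | n + 1, q, P, A, B, p2, p1, st, hq, hP, hA, hB, hc, g, h, h0, h1, h2 => by
    have key : ∀ x, walk tau n (q.ch (med p2 p1 x)) (P.ch x) (A.ch x) (B.ch x) p1 x st = true := by
      intro x
      simp only [walk, Bool.and_eq_true] at hc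
      cases x
      · exact hc.1.1
      · exact hc.1.2
      · exact hc.2
    rw [T.ev_ch hq, T.ev_ch hB, T.ev_ch hP, T.ev_ch hA, h0]
    refine walk_spec n _ _ _ _ _ _ st (T.ch_dp hq _) (T.ch_dp hP _) (T.ch_dp hA _)
      (T.ch_dp hB _) (key (g 0)) (sh g) (sh h) ?_ ?_ ?_
    · exact h1
    · exact h2 0
    · intro k
      exact h2 (k + 1)

theorem chkW_spec {w tau : ℕ} {q P B : T} (hq : q.dp (w + 3)) (hP : P.dp (w + 3))
    (hB : B.dp (w + 4)) (hc : chkW (w + 3) tau q P B = true) (f : ℕ → S) :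
    q.ev (mf f) + (B.ev f + tt tau (f 3)) ≤ P.ev (sh f) + B.ev (sh f) := by
  have h := all3_spec (all3_spec (all3_spec (all3_spec hc (f 0)) (f 1)) (f 2)) (f 3)
  have hq1 := T.ch_dp hq (med (f 0) (f 1) (f 2))
  have hP1 := T.ch_dp hP (f 1)
  have hP2 := T.ch_dp hP1 (f 2)
  have hA1 := T.ch_dp hB (f 0)
  have hA2 := T.ch_dp hA1 (f 1)
  have hA3 := T.ch_dp hA2 (f 2)
  have hB1 := T.ch_dp hB (f 1)
  have hB2 := T.ch_dp hB1 (f 2)
  have e : w + 3 - 3 = w := by omega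
  rw [e] at h
  have := walk_spec w _ _ _ _ (f 2) (f 3) (f 3) (T.ch_dp hq1 _) (T.ch_dp hP2 _)
    (T.ch_dp hA3 _) (T.ch_dp hB2 _) h (sh (sh (sh (sh f)))) (sh (sh (mf f))) rfl rfl
    (fun k => rfl)
  have e1 : q.ev (mf f) = ((q.ch (med (f 0) (f 1) (f 2))).ch (med (f 1) (f 2) (f 3))).ev
      (sh (sh (mf f))) := (T.ev_ch hq _).trans (T.ev_ch hq1 _)
  have e2 : B.ev (sh f) = (((B.ch (f 1)).ch (f 2)).ch (f 3)).ev (sh (sh (sh (sh f)))) :=
    (T.ev_ch hB _).trans ((T.ev_ch hB1 _).trans (T.ev_ch hB2 _))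
  have e3 : P.ev (sh f) = (((P.ch (f 1)).ch (f 2)).ch (f 3)).ev (sh (sh (sh (sh f)))) :=
    (T.ev_ch hP _).trans ((T.ev_ch hP1 _).trans (T.ev_ch hP2 _))
  have e4 : B.ev f = ((((B.ch (f 0)).ch (f 1)).ch (f 2)).ch (f 3)).ev (sh (sh (sh (sh f)))) :=
    (T.ev_ch hB _).trans ((T.ev_ch hA1 _).trans ((T.ev_ch hA2 _).trans (T.ev_ch hA3 _)))
  rw [e1, e2, e3, e4]
  exact this

/-- polynomial weights -/
noncomputable def pE (a b : ℕ) : ℕ[X][X] := ((a : ℕ[X][X]) + (b : ℕ[X][X]) * C X) * (1 + X)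

/-- polynomial weights -/
noncomputable def pD : ℕ[X][X] := 100 * (1 + C X) * (1 + X)

/-- polynomial weights -/
noncomputable def pR (K a b : ℕ) : ℕ[X][X] :=
  ((100 * K - a : ℕ) : ℕ[X][X]) + ((100 * K - b : ℕ) : ℕ[X][X]) * C X

theorem th_E {A : Type} [CommSemiring A] (x y : A) (a b : ℕ) :
    th x y (pE a b) = (a + b * x) * (1 + y) := by
  simp [th, pE]

theorem th_D {A : Type} [CommSemiring A] (x y : A) :
    th x y pD = 100 * (1 + x) * (1 + y) := by
  simp [th, pD]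

theorem th_R {A : Type} [CommSemiring A] (x y : A) (K a b : ℕ) :
    th x y (pR K a b) = ((100 * K - a : ℕ) : A) + ((100 * K - b : ℕ) : A) * x := by
  simp [th, pR]

theorem lin_bd (a b : ℕ) : (((a : ℕ[X][X]) + (b : ℕ[X][X]) * C X).natDegree ≤ 0) ∧
    ∀ i, (((a : ℕ[X][X]) + (b : ℕ[X][X]) * C X).coeff i).natDegree ≤ 1 := by
  have e : ((a : ℕ[X][X]) + (b : ℕ[X][X]) * C X) = C ((a : ℕ[X]) + (b : ℕ[X]) * X) := by simp
  rw [e]
  refine ⟨(natDegree_C _).le, fun i => ?_⟩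
  rw [coeff_C]
  split_ifs
  · refine (natDegree_add_le _ _).trans (max_le ?_ ?_)
    · rw [natDegree_natCast]; exact Nat.zero_le _
    · refine natDegree_mul_le.trans ?_
      rw [natDegree_natCast]
      have := natDegree_X_le (R := ℕ)
      omega
  · simp

theorem one_add_X_bd : ((1 + X : ℕ[X][X]).natDegree ≤ 1) ∧
    ∀ i, ((1 + X : ℕ[X][X]).coeff i).natDegree ≤ 0 := by
  constructor
  · refine (natDegree_add_le _ _).trans (max_le ?_ natDegree_X_le)
    simp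
  · intro i
    rw [coeff_add, coeff_one, coeff_X]
    refine (natDegree_add_le _ _).trans (max_le ?_ ?_)
    · split_ifs <;> simp
    · split_ifs <;> simp

theorem bd_prod {P Q : ℕ[X][X]} (hP : P.natDegree ≤ 0 ∧ ∀ i, (P.coeff i).natDegree ≤ 1)
    (hQ : Q.natDegree ≤ 1 ∧ ∀ i, (Q.coeff i).natDegree ≤ 0) : Bd 1 (P * Q) := by
  refine ⟨natDegree_mul_le.trans ?_, fun i => ?_⟩
  · have := hP.1
    have := hQ.1
    omega
  · rw [coeff_mul]
    refine natDegree_sum_le_of_forall_le _ _ fun p _ => ?_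
    refine natDegree_mul_le.trans ?_
    have := hP.2 p.1
    have := hQ.2 p.2
    omega

theorem bd_E (a b : ℕ) : Bd 1 (pE a b) := bd_prod (lin_bd a b) one_add_X_bd

theorem bd_D : Bd 1 pD := by
  have e : pD = (((100 : ℕ) : ℕ[X][X]) + ((100 : ℕ) : ℕ[X][X]) * C X) * (1 + X) := by
    unfold pD
    push_cast
    ring
  rw [e]
  exact bd_prod (lin_bd 100 100) one_add_X_bd

theorem bd_R (K a b : ℕ) : Bd 1 (pR K a b) := by
  have h := lin_bd (100 * K - a) (100 * K - b)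
  exact ⟨h.1.trans (Nat.zero_le _), h.2⟩

theorem chk_spec {w X K a b tau : ℕ} {P B : T} (hc : Chk (w + 3) X K a b tau P B = true) {q s : ℝ}
    (hq : 0 ≤ q) (hs : 0 ≤ s) {E D R : ℝ} (hE : E = (a + b * q) * (1 + s))
    (hD : D = 100 * (1 + q) * (1 + s)) (hR : R = (100 * K - a) + (100 * K - b) * q) (f : ℕ → S) :
    P.gv E D R (mf f) + (E + D + R) ^ (w + 3) * ((B.ev f : ℝ) + (tt tau (f 3) : ℝ)) ≤
      (E + D + R) ^ (w + 3) * ((P.ev (sh f) : ℝ) + (B.ev (sh f) : ℝ)) ∧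
    P.dp (w + 3) ∧ B.dp (w + 4) := by
  simp only [Chk, seqN_eq, T.force_eq, T.trK_eq, Bool.and_eq_true] at hc
  obtain ⟨⟨⟨⟨⟨⟨hPok, hBok⟩, hpos⟩, hsize⟩, haK⟩, hbK⟩, hW⟩ := hc
  have hPd := T.okB_dp hPok
  have hBd := T.okB_dp hBok
  refine ⟨?_, hPd, hBd⟩
  rw [Nat.ble_eq] at haK hbK
  have hsize : (200 * (K + 2) + a + b) ^ (w + 3) * 2 ^ 22 < X := Nat.le_of_ble_eq_true hsize
  set En := wE (w + 3) X a b with hEn
  set Dn := wD (w + 3) X with hDn
  set Rn := wR X K a b with hRn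
  have tE : th X (X ^ (w + 3 + 1)) (pE a b) = En := by rw [th_E]; simp [hEn, wE]
  have tD : th X (X ^ (w + 3 + 1)) pD = Dn := by rw [th_D]; simp [hDn, wD]
  have tR : th X (X ^ (w + 3 + 1)) (pR K a b) = Rn := by rw [th_R]; simp [hRn, wR]
  have t1 : th 1 1 (pE a b) + th 1 1 pD + th 1 1 (pR K a b) = 200 * (K + 2) + a + b := by
    rw [th_E, th_D, th_R]
    simp only [Nat.cast_id, mul_one]
    omega
  -- the polynomials
  set Gp := P.gv (pE a b) pD (pR K a b) (mf f) with hGp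
  set Mp := (pE a b + pD + pR K a b) ^ (w + 3) with hMp
  have bG : Bd (w + 3) Gp := Bd.gv (bd_E a b) bd_D (bd_R K a b) hPd _
  have bM : Bd (w + 3) Mp := Bd.pow (((bd_E a b).add bd_D).add (bd_R K a b)) _
  have cG : ∀ i j, (Gp.coeff i).coeff j < X := by
    intro i j
    refine (coeff_le_th Gp i j).trans_lt (lt_of_le_of_lt ?_ hsize)
    refine (le_of_eq (T.gv_map (th 1 1) (pE a b) pD (pR K a b) P (mf f))).trans ?_
    refine (T.gv_le _ _ _ hPok _).trans_eq ?_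
    rw [t1]
  have cM : ∀ i j, (Mp.coeff i).coeff j < X := by
    intro i j
    refine (coeff_le_th Mp i j).trans_lt (lt_of_le_of_lt ?_ hsize)
    rw [hMp, map_pow, map_add, map_add, t1]
    exact Nat.le_mul_of_pos_right _ (by positivity)
  have eG : th X (X ^ (w + 3 + 1)) Gp = (P.tr En Dn Rn).ev (mf f) := by
    rw [T.tr_ev _ _ _ hPd, ← tE, ← tD, ← tR]
    exact T.gv_map (th X (X ^ (w + 3 + 1))) (pE a b) pD (pR K a b) P (mf f)
  have eM : th X (X ^ (w + 3 + 1)) Mp = (En + Dn + Rn) ^ (w + 3) := by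
    rw [hMp, map_pow, map_add, map_add, tE, tD, tR]
  set c := (P.tr En Dn Rn).ev (mf f) with hcdef
  set z := MJ6.need X ((w + 3 + 1) * (w + 3 + 1)) c ((En + Dn + Rn) ^ (w + 3)) 0 with hz
  have hz2 : (T.need X ((w + 3 + 1) * (w + 3 + 1)) ((En + Dn + Rn) ^ (w + 3))
      (P.tr En Dn Rn)).ev (mf f) = z := T.need_ev (T.tr_dp _ _ _ hPd) _
  have hmain := chkW_spec (T.need_dp (T.tr_dp _ _ _ hPd)) hPd hBd hW f
  rw [hz2] at hmain
  have hdig := (need_spec ((w + 3 + 1) * (w + 3 + 1)) c ((En + Dn + Rn) ^ (w + 3)) 0 hpos).2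
  have hle : th q s Gp ≤ z * th q s Mp := by
    refine th_le_of_coeff bG bM (fun i hi j hj => ?_) hq hs
    have h1 := digit2 bG cG hj i
    have h2 := digit2 bM cM hj i
    rw [eG] at h1
    rw [eM] at h2
    rw [← h1, ← h2]
    refine hdig _ ?_
    calc (w + 3 + 1) * i + j < (w + 3 + 1) * i + (w + 3 + 1) := by omega
      _ = (w + 3 + 1) * (i + 1) := by ring
      _ ≤ (w + 3 + 1) * (w + 3 + 1) := Nat.mul_le_mul_left _ (by omega)
  have rE : th q s (pE a b) = E := by rw [th_E, hE]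
  have rD : th q s pD = D := by rw [th_D, hD]
  have rR : th q s (pR K a b) = R := by
    rw [th_R, hR, Nat.cast_sub haK, Nat.cast_sub hbK]
    push_cast
    ring
  have rG : th q s Gp = P.gv E D R (mf f) := by
    rw [← rE, ← rD, ← rR]
    exact T.gv_map (th q s) (pE a b) pD (pR K a b) P (mf f)
  rw [rG, hMp, map_pow, map_add, map_add, rE, rD, rR] at hle
  have hE0 : 0 ≤ E := by rw [hE]; positivity
  have hD0 : 0 ≤ D := by rw [hD]; positivity
  have hR0 : 0 ≤ R := by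
    rw [← rR, th_R]
    positivity
  have hM0 : 0 ≤ (E + D + R) ^ (w + 3) := by positivity
  have hmain' : (z : ℝ) + ((B.ev f : ℝ) + (tt tau (f 3) : ℝ)) ≤
      (P.ev (sh f) : ℝ) + (B.ev (sh f) : ℝ) := by exact_mod_cast hmain
  nlinarith [mul_le_mul_of_nonneg_left hmain' hM0]

end Pool.Agent.MJ6
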