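import Pool.Agent.MJ6.Main

/-! From the kernel check of a weight function to the inequality for a patch of noise rates, and
the symmetry exchanging the two opinions. -/

set_option autoImplicit false

namespace Pool.Agent.MJ6

open MeasureTheory Set Pool.Agent.Helper55.Vote

theorem good_of_chk {w X K a b tau : ℕ} {P B : T} (hc : Chk (w + 3) X K a b tau P B = true)
    {ε δ : ℝ} (h1 : ε + δ < 1) (hδ : 0 < δ) (hK : 1 ≤ ((K : ℝ) + 1) * δ)
    (ha : (a : ℝ) * δ ≤ 100 * ε) (hb : 100 * ε < (b : ℝ) * δ) : Good (w + 3) tau P B ε δ := by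
  set r := 1 - ε - δ with hr
  have hr0 : 0 < r := by rw [hr]; linarith
  have hv : 0 < (b : ℝ) * δ - 100 * ε := by linarith
  set q := (100 * ε - a * δ) / (b * δ - 100 * ε) with hq
  set s := (((K : ℝ) + 1) * δ - 1) / r with hs
  have hq0 : 0 ≤ q := div_nonneg (by linarith) hv.le
  have hs0 : 0 ≤ s := div_nonneg (by linarith) hr0.le
  have hqe : q * (b * δ - 100 * ε) = 100 * ε - a * δ := by
    rw [hq, div_mul_cancel₀ _ hv.ne']
  have hse : s * r = (K + 1) * δ - 1 := by
    rw [hs]; field_simp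
  set L := 100 * (1 + q) * (1 + s) / δ with hL
  have hL0 : 0 < L := by
    rw [hL]; positivity
  have hLδ : L * δ = 100 * (1 + q) * (1 + s) := by
    rw [hL]; field_simp
  have e1 : 100 * (1 + q) * ε = (a + b * q) * δ := by linear_combination -hqe
  have hE : L * ε = (a + b * q) * (1 + s) := by
    rw [hL, div_mul_eq_mul_div, div_eq_iff hδ.ne']
    linear_combination (1 + s) * e1
  have hR : L * r = (100 * K - a) + (100 * K - b) * q := by
    rw [hL, div_mul_eq_mul_div, div_eq_iff hδ.ne']
    have e2 : (1 + s) * r = K * δ - ε := by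
      have : (1 + s) * r = r + s * r := by ring
      rw [this, hse, hr]; ring
    have e3 : 100 * (1 + q) * (1 + s) * r = 100 * (1 + q) * ((1 + s) * r) := by ring
    rw [e3, e2]
    linear_combination -e1
  have key := fun f => chk_spec hc hq0 hs0 hE hLδ hR f
  have hsum : L * ε + L * δ + L * r = L := by rw [hr]; ring
  obtain ⟨-, hPd, hBd⟩ := key (fun _ => .z)
  refine ⟨hPd, hBd, fun f => ?_⟩
  have h := (key f).1
  rw [T.gv_smul L ε δ r hPd, hsum, ← mul_add] at h
  exact le_of_mul_le_mul_left h (pow_pos hL0 _)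

/-- exchange of the two opinions -/
def S.fl : S → S
  | .z => .o
  | .s => .s
  | .o => .z

/-- exchange of the two opinions in a tree -/
def T.fl : T → T
  | .l x => .l x
  | .n a b c => .n c.fl b.fl a.fl

theorem T.fl_dp : ∀ {d : ℕ} {t : T}, t.dp d → t.fl.dp d
  | 0, t, h => by
    obtain ⟨x, rfl⟩ := T.dp_zero h
    trivial
  | d + 1, t, h => by
    obtain ⟨a, b, c, rfl, ha, hb, hc⟩ := T.dp_succ h
    exact ⟨T.fl_dp hc, T.fl_dp hb, T.fl_dp ha⟩

theorem T.fl_ev (t : T) (f : ℕ → S) : t.fl.ev f = t.ev (fun k => (f k).fl) := by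
  induction t generalizing f with
  | l x => rfl
  | n a b c iha ihb ihc =>
    have e1 : (T.n a b c).fl.ev f = (match f 0 with
      | .z => c.fl.ev (sh f)
      | .s => b.fl.ev (sh f)
      | .o => a.fl.ev (sh f)) := rfl
    have e2 : (T.n a b c).ev (fun k => (f k).fl) = (match (f 0).fl with
      | .z => a.ev (fun k => (sh f k).fl)
      | .s => b.ev (fun k => (sh f k).fl)
      | .o => c.ev (fun k => (sh f k).fl)) := rfl
    rw [e1, e2, iha, ihb, ihc]
    cases f 0 <;> rfl

theorem T.fl_gv (E D R : ℝ) (t : T) (f : ℕ → S) :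
    t.fl.gv E D R f = t.gv D E R (fun k => (f k).fl) := by
  induction t generalizing f with
  | l x => rfl
  | n a b c iha ihb ihc =>
    have e1 : (T.n a b c).fl.gv E D R f = E * c.fl.gv E D R (sh f) + D * a.fl.gv E D R (sh f) +
      R * (match f 0 with
      | .z => c.fl.gv E D R (sh f)
      | .s => b.fl.gv E D R (sh f)
      | .o => a.fl.gv E D R (sh f)) := rfl
    have e2 : (T.n a b c).gv D E R (fun k => (f k).fl) =
      D * a.gv D E R (fun k => (sh f k).fl) + E * c.gv D E R (fun k => (sh f k).fl) +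
      R * (match (f 0).fl with
      | .z => a.gv D E R (fun k => (sh f k).fl)
      | .s => b.gv D E R (fun k => (sh f k).fl)
      | .o => c.gv D E R (fun k => (sh f k).fl)) := rfl
    rw [e1, e2, iha, ihb, ihc]
    cases f 0 <;> simp only [S.fl] <;> ring

theorem med_fl (a b c : S) : med a.fl b.fl c.fl = (med a b c).fl := by
  cases a <;> cases b <;> cases c <;> rfl

theorem Good.fl {w tau : ℕ} {P B : T} {ε δ : ℝ} (h : Good w tau P B ε δ) :
    Good w tau P.fl B.fl δ ε := by
  obtain ⟨hP, hB, hg⟩ := h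
  refine ⟨T.fl_dp hP, T.fl_dp hB, fun f => ?_⟩
  have h := hg (fun k => (f k).fl)
  rw [T.fl_gv, T.fl_ev, T.fl_ev, T.fl_ev]
  have e1 : (fun k => (mf f k).fl) = mf (fun k => (f k).fl) := by
    funext k
    exact (med_fl _ _ _).symm
  have e2 : tt tau (f 3) = tt tau (f 3).fl := by cases f 3 <;> rfl
  have e3 : 1 - δ - ε = 1 - ε - δ := by ring
  rw [e1, e2, e3]
  exact h

end Pool.Agent.MJ6
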