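import Pool.Agent.MJ6.C0
import Pool.Agent.MJ6.C1
import Pool.Agent.MJ6.C2
import Pool.Agent.MJ6.C3
import Pool.Agent.MJ6.C4
import Pool.Agent.MJ6.C5
import Pool.Agent.MJ6.C6
import Pool.Agent.MJ6.C7
import Pool.Agent.MJ6.C8
import Pool.Agent.MJ6.Patch
import Pool.Agent.Helper77.VoteSqrt.Main

/-! Ergodicity of the noisy majority voting with three equally spaced neighbours when one of the
noise rates is at least `1 / 20`. -/

set_option autoImplicit false

namespace Pool.Agent.MJ6

open MeasureTheory Set Pool.Agent.Helper55.Vote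

theorem exists_good {ε δ : ℝ} (hε : 0 < ε) (hle : ε ≤ δ) (h1 : ε + δ < 1) (h20 : 1 / 20 ≤ δ) :
    ∃ (tau : ℕ) (P B : T), 0 < tau ∧ Good 6 tau P B ε δ := by
  have hδ : 0 < δ := by linarith
  have hK : 1 ≤ ((19 : ℕ) + 1 : ℝ) * δ := by push_cast; linarith
  by_cases g0 : 100 * ε < 34 * δ
  · exact ⟨_, _, _, by norm_num, good_of_chk (w := 3) chk0 h1 hδ hK (by push_cast; linarith)
      (by push_cast; linarith)⟩
  by_cases g1 : 100 * ε < 47 * δ
  · exact ⟨_, _, _, by norm_num, good_of_chk (w := 3) chk1 h1 hδ hK (by push_cast; linarith)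
      (by push_cast; linarith)⟩
  by_cases g2 : 100 * ε < 55 * δ
  · exact ⟨_, _, _, by norm_num, good_of_chk (w := 3) chk2 h1 hδ hK (by push_cast; linarith)
      (by push_cast; linarith)⟩
  by_cases g3 : 100 * ε < 62 * δ
  · exact ⟨_, _, _, by norm_num, good_of_chk (w := 3) chk3 h1 hδ hK (by push_cast; linarith)
      (by push_cast; linarith)⟩
  by_cases g4 : 100 * ε < 68 * δ
  · exact ⟨_, _, _, by norm_num, good_of_chk (w := 3) chk4 h1 hδ hK (by push_cast; linarith)
      (by push_cast; linarith)⟩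
  by_cases g5 : 100 * ε < 74 * δ
  · exact ⟨_, _, _, by norm_num, good_of_chk (w := 3) chk5 h1 hδ hK (by push_cast; linarith)
      (by push_cast; linarith)⟩
  by_cases g6 : 100 * ε < 82 * δ
  · exact ⟨_, _, _, by norm_num, good_of_chk (w := 3) chk6 h1 hδ hK (by push_cast; linarith)
      (by push_cast; linarith)⟩
  by_cases g7 : 100 * ε < 91 * δ
  · exact ⟨_, _, _, by norm_num, good_of_chk (w := 3) chk7 h1 hδ hK (by push_cast; linarith)
      (by push_cast; linarith)⟩
  by_cases g8 : 100 * ε < 101 * δ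
  · exact ⟨_, _, _, by norm_num, good_of_chk (w := 3) chk8 h1 hδ hK (by push_cast; linarith)
      (by push_cast; linarith)⟩
  exact absurd (by linarith : 100 * ε < 101 * δ) g8

theorem D_of_max {ε δ : ℝ} (hε : 0 < ε) (hδ : 0 < δ) (h1 : ε + δ < 1) (h20 : 1 / 20 ≤ max ε δ)
    {p : ℤ} (hp : 0 < p) :
    Filter.Tendsto (fun t => D (law ε δ) (Np p) t) Filter.atTop (nhds 0) := by
  rcases le_total ε δ with hle | hle
  · rw [max_eq_right hle] at h20
    obtain ⟨tau, P, B, ht, hG⟩ := exists_good hε hle h1 h20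
    exact D_tendsto hε.le hδ.le h1.le hp (by norm_num) ht hG
  · rw [max_eq_left hle] at h20
    obtain ⟨tau, P, B, ht, hG⟩ := exists_good hδ hle (by linarith) h20
    exact D_tendsto hε.le hδ.le h1.le hp (by norm_num) ht hG.fl

theorem ergodic_ap (c p : ℤ) (hp : 0 < p) (ε δ : ℝ) (hε : 0 < ε) (hδ : 0 < δ) (h1 : ε + δ ≤ 1)
    (h20 : 1 / 20 ≤ max ε δ) : Ergodic {c - p, c, c + p} ε δ := by
  have hN : (({c - p, c, c + p} : Finset ℤ).image fun v => v - c) = Np p := by
    unfold Np
    rw [Finset.image_insert, Finset.image_insert, Finset.image_singleton]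
    have e1 : c - p - c = -p := by ring
    have e2 : c - c = 0 := by ring
    have e3 : c + p - c = p := by ring
    rw [e1, e2, e3]
  rcases h1.lt_or_eq with h | h
  · have : IsProbabilityMeasure (law ε δ) := law_prob hε.le hδ.le h1
    refine ergodic_of_decay _ ε δ hε hδ h1 ((D_of_max hε hδ h h20 hp).congr fun t => ?_)
    rw [← hN]
    exact D_shear (law ε δ) _ c t
  · have hcard : ({c - p, c, c + p} : Finset ℤ).card = 2 * 1 + 1 := by
      rw [Finset.card_insert_of_notMem (by
          simp only [Finset.mem_insert, Finset.mem_singleton]; omega),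
        Finset.card_insert_of_notMem (by simp only [Finset.mem_singleton]; omega),
        Finset.card_singleton]
    refine Pool.Agent.Helper77.VoteSqrt.ergodic_main _ hcard hε hδ h1 (Or.inr (Or.inl ?_))
    have : 1 - ε - δ = 0 := by linarith
    rw [this]
    norm_num

end Pool.Agent.MJ6
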