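import Pool.Agent.MJ6.Sem

/-! Packed coefficients: digits of the packed numbers are the coefficients. -/

set_option autoImplicit false

namespace Pool.Agent.MJ6

open Polynomial

/-- the ring homomorphism evaluating a polynomial in two variables -/
noncomputable def th {A : Type} [CommSemiring A] (x y : A) : ℕ[X][X] →+* A :=
  eval₂RingHom (eval₂RingHom (Nat.castRingHom A) x) y

/-- both degrees are at most `n` -/
def Bd (n : ℕ) (P : ℕ[X][X]) : Prop := P.natDegree ≤ n ∧ ∀ i, (P.coeff i).natDegree ≤ n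

theorem Bd.add {n : ℕ} {P Q : ℕ[X][X]} (hP : Bd n P) (hQ : Bd n Q) : Bd n (P + Q) := by
  refine ⟨(natDegree_add_le _ _).trans (max_le hP.1 hQ.1), fun i => ?_⟩
  rw [coeff_add]
  exact (natDegree_add_le _ _).trans (max_le (hP.2 i) (hQ.2 i))

theorem Bd.mul {n m : ℕ} {P Q : ℕ[X][X]} (hP : Bd n P) (hQ : Bd m Q) : Bd (n + m) (P * Q) := by
  refine ⟨natDegree_mul_le.trans (Nat.add_le_add hP.1 hQ.1), fun i => ?_⟩
  rw [coeff_mul]
  refine natDegree_sum_le_of_forall_le _ _ fun p _ => ?_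
  exact natDegree_mul_le.trans (Nat.add_le_add (hP.2 _) (hQ.2 _))

theorem Bd.nat (n x : ℕ) : Bd n (x : ℕ[X][X]) := by
  refine ⟨by rw [natDegree_natCast]; exact Nat.zero_le _, fun i => ?_⟩
  rw [← C_eq_natCast, coeff_C]
  split_ifs
  · rw [natDegree_natCast]; exact Nat.zero_le _
  · simp

theorem Bd.mono {n m : ℕ} (h : n ≤ m) {P : ℕ[X][X]} (hP : Bd n P) : Bd m P :=
  ⟨hP.1.trans h, fun i => (hP.2 i).trans h⟩

theorem Bd.pow {P : ℕ[X][X]} (hP : Bd 1 P) (w : ℕ) : Bd w (P ^ w) := by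
  induction w with
  | zero => simpa using Bd.nat 0 1
  | succ w ih => rw [pow_succ]; exact ih.mul hP

theorem Bd.gv {E D R : ℕ[X][X]} (hE : Bd 1 E) (hD : Bd 1 D) (hR : Bd 1 R) :
    ∀ {d : ℕ} {t : T}, t.dp d → ∀ f : ℕ → S, Bd d (t.gv E D R f)
  | 0, t, h, f => by
    obtain ⟨x, rfl⟩ := T.dp_zero h
    exact Bd.nat 0 x
  | d + 1, t, h, f => by
    obtain ⟨a, b, c, rfl, ha, hb, hc⟩ := T.dp_succ h
    rw [T.gv, add_comm d 1]
    have hA := Bd.gv hE hD hR ha (sh f)
    have hB := Bd.gv hE hD hR hb (sh f)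
    have hC := Bd.gv hE hD hR hc (sh f)
    refine ((hE.mul hA).add (hD.mul hC)).add (hR.mul ?_)
    cases f 0
    · exact hA
    · exact hB
    · exact hC

/-- digits of the value of a polynomial with small coefficients -/
theorem digit1 {b : ℕ} (j : ℕ) (p : ℕ[X]) (h : ∀ i, p.coeff i < b) :
    (p.eval b) / b ^ j % b = p.coeff j := by
  induction j generalizing p with
  | zero =>
    have h1 : p.eval b = (p.divX).eval b * b + p.coeff 0 := by
      conv_lhs => rw [← divX_mul_X_add p]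
      simp
    rw [pow_zero, Nat.div_one, h1, Nat.mul_comm, Nat.mul_add_mod, Nat.mod_eq_of_lt (h 0)]
  | succ j ih =>
    have hb : 0 < b := (Nat.zero_le _).trans_lt (h 0)
    have h1 : p.eval b = (p.divX).eval b * b + p.coeff 0 := by
      conv_lhs => rw [← divX_mul_X_add p]
      simp
    have h2 : p.eval b / b = p.divX.eval b := by
      rw [h1, Nat.mul_comm, Nat.mul_add_div hb, Nat.div_eq_of_lt (h 0), add_zero]
    rw [pow_succ', ← Nat.div_div_eq_div_mul, h2, ih _ (fun i => by rw [coeff_divX]; exact h _),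
      coeff_divX]

theorem eval_lt {b n : ℕ} (p : ℕ[X]) (h : ∀ i, p.coeff i < b) (hn : p.natDegree ≤ n) :
    p.eval b < b ^ (n + 1) := by
  induction n generalizing p with
  | zero =>
    rw [eq_C_of_natDegree_eq_zero (Nat.le_zero.1 hn)]
    simpa using h 0
  | succ n ih =>
    have h1 : p.eval b = (p.divX).eval b * b + p.coeff 0 := by
      conv_lhs => rw [← divX_mul_X_add p]
      simp
    have h2 : p.divX.eval b < b ^ (n + 1) := by
      refine ih _ (fun i => by rw [coeff_divX]; exact h _) ?_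
      rw [natDegree_divX_eq_natDegree_tsub_one]
      omega
    rw [h1, pow_succ]
    have h0 := h 0
    calc p.divX.eval b * b + p.coeff 0 < p.divX.eval b * b + b := by omega
      _ = (p.divX.eval b + 1) * b := by ring
      _ ≤ b ^ (n + 1) * b := Nat.mul_le_mul_right _ h2

theorem th_eq_eval (B n : ℕ) (P : ℕ[X][X]) :
    th B (B ^ (n + 1)) P = (P.map (evalRingHom B)).eval (B ^ (n + 1)) := by
  unfold th
  rw [coe_eval₂RingHom, eval_map]
  congr 1

/-- digits of the packed number -/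
theorem digit2 {B n : ℕ} {P : ℕ[X][X]} (hP : Bd n P) (h : ∀ i j, (P.coeff i).coeff j < B)
    {j : ℕ} (hj : j ≤ n) (i : ℕ) :
    (th B (B ^ (n + 1)) P) / B ^ ((n + 1) * i + j) % B = (P.coeff i).coeff j := by
  have h1 : ∀ i, (P.map (evalRingHom B)).coeff i = (P.coeff i).eval B := by
    intro i
    rw [coeff_map, coe_evalRingHom]
  have h2 := digit1 (b := B ^ (n + 1)) i (P.map (evalRingHom B)) fun i => by
    rw [h1]
    exact eval_lt _ (h i) (hP.2 i)
  rw [h1, ← th_eq_eval] at h2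
  have h3 := digit1 j (P.coeff i) (h i)
  rw [← h2] at h3
  have e : B ^ ((n + 1) * i + j) = (B ^ (n + 1)) ^ i * B ^ j := by rw [pow_add, pow_mul]
  rw [e, ← Nat.div_div_eq_div_mul, ← h3]
  have hB : 0 < B := (Nat.zero_le _).trans_lt (h 0 0)
  set c := th B (B ^ (n + 1)) P / (B ^ (n + 1)) ^ i with hc
  -- (c mod B^(n+1)) / B^j mod B = c / B^j mod B
  have h4 : B ^ (n + 1) = B ^ j * B ^ (n + 1 - j) := by
    rw [← pow_add]; congr 1; omega
  rw [h4, Nat.mod_mul_right_div_self, Nat.mod_mod_of_dvd]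
  exact dvd_pow_self B (by omega)

/-- coefficients are bounded by the value at `(1, 1)` -/
theorem coeff_le_th (P : ℕ[X][X]) (i j : ℕ) : (P.coeff i).coeff j ≤ th 1 1 P := by
  have key : ∀ (p : ℕ[X]) (j : ℕ), p.coeff j ≤ p.eval 1 := by
    intro p j
    rw [eval_eq_sum_range]
    simp only [one_pow, mul_one]
    by_cases hj : j ≤ p.natDegree
    · exact Finset.single_le_sum (f := fun i => p.coeff i) (fun _ _ => Nat.zero_le _)
        (Finset.mem_range.2 (by omega))
    · rw [coeff_eq_zero_of_natDegree_lt (by omega)]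
      exact Nat.zero_le _
  have h1 : th 1 1 P = (P.map (evalRingHom 1)).eval 1 := by
    have := th_eq_eval 1 0 P
    simpa using this
  rw [h1]
  refine (key (P.coeff i) j).trans ?_
  have h2 := key (P.map (evalRingHom 1)) i
  rw [coeff_map] at h2
  exact h2

/-- evaluation at a real point through the coefficients -/
theorem th_real {n : ℕ} {P : ℕ[X][X]} (hP : Bd n P) (q s : ℝ) :
    th q s P = ∑ i ∈ Finset.range (n + 1), (∑ j ∈ Finset.range (n + 1),
      (((P.coeff i).coeff j : ℕ) : ℝ) * q ^ j) * s ^ i := by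
  unfold th
  rw [coe_eval₂RingHom, eval₂_eq_sum_range' _ (Nat.lt_succ_of_le hP.1)]
  refine Finset.sum_congr rfl fun i _ => ?_
  rw [coe_eval₂RingHom, eval₂_eq_sum_range' _ (Nat.lt_succ_of_le (hP.2 i))]
  rfl

theorem th_le_of_coeff {n z : ℕ} {P Q : ℕ[X][X]} (hP : Bd n P) (hQ : Bd n Q)
    (h : ∀ i ≤ n, ∀ j ≤ n, (P.coeff i).coeff j ≤ z * (Q.coeff i).coeff j) {q s : ℝ}
    (hq : 0 ≤ q) (hs : 0 ≤ s) : th q s P ≤ z * th q s Q := by
  rw [th_real hP, th_real hQ, Finset.mul_sum]
  refine Finset.sum_le_sum fun i hi => ?_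
  rw [← mul_assoc, Finset.mul_sum]
  refine mul_le_mul_of_nonneg_right ?_ (pow_nonneg hs _)
  refine Finset.sum_le_sum fun j hj => ?_
  rw [← mul_assoc]
  refine mul_le_mul_of_nonneg_right ?_ (pow_nonneg hq _)
  rw [Finset.mem_range] at hi hj
  exact_mod_cast h i (by omega) j (by omega)

/-- meaning of `need` -/
theorem need_spec {X : ℕ} : ∀ (k c M z0 : ℕ), posD X k M = true →
    z0 ≤ need X k c M z0 ∧ ∀ m < k, c / X ^ m % X ≤ need X k c M z0 * (M / X ^ m % X)
  | 0, c, M, z0, _ => ⟨le_rfl, fun m hm => by omega⟩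
  | k + 1, c, M, z0, h => by
    simp only [posD, Bool.and_eq_true] at h
    have hpos : 0 < M % X := Nat.le_of_ble_eq_true h.1
    simp only [need, seqN_eq]
    set z := max z0 ((c % X + M % X - 1) / (M % X)) with hz
    obtain ⟨h1, h2⟩ := need_spec k (c / X) (M / X) z h.2
    refine ⟨(le_max_left _ _).trans h1, fun m hm => ?_⟩
    cases m with
    | zero =>
      rw [pow_zero, Nat.div_one, Nat.div_one]
      have h3 : (c % X + M % X - 1) / (M % X) ≤ need X k (c / X) (M / X) z :=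
        (le_max_right _ _).trans h1
      have h4 := Nat.lt_mul_div_succ (c % X + M % X - 1) hpos
      have h5 : M % X * ((c % X + M % X - 1) / (M % X) + 1) ≤
          M % X * (need X k (c / X) (M / X) z + 1) := Nat.mul_le_mul_left _ (by omega)
      rw [Nat.mul_comm (need X k (c / X) (M / X) z)]
      simp only [Nat.mul_add, Nat.mul_one] at h4 h5
      omega
    | succ m =>
      have := h2 m (by omega)
      rw [Nat.div_div_eq_div_mul, Nat.div_div_eq_div_mul, ← pow_succ'] at this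
      exact this

theorem T.need_dp {X k M : ℕ} : ∀ {d : ℕ} {t : T}, t.dp d → (t.need X k M).dp d
  | 0, t, h => by
    obtain ⟨x, rfl⟩ := T.dp_zero h
    trivial
  | d + 1, t, h => by
    obtain ⟨a, b, c, rfl, ha, hb, hc⟩ := T.dp_succ h
    exact ⟨T.need_dp ha, T.need_dp hb, T.need_dp hc⟩

theorem T.need_ev {X k M : ℕ} : ∀ {d : ℕ} {t : T}, t.dp d → ∀ f : ℕ → S,
    (t.need X k M).ev f = MJ6.need X k (t.ev f) M 0
  | 0, t, h, f => by
    obtain ⟨x, rfl⟩ := T.dp_zero h
    rfl
  | d + 1, t, h, f => by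
    rw [T.ev_ch (T.need_dp h), T.ev_ch h]
    obtain ⟨a, b, c, rfl, ha, hb, hc⟩ := T.dp_succ h
    cases f 0
    · exact T.need_ev ha _
    · exact T.need_ev hb _
    · exact T.need_ev hc _

end Pool.Agent.MJ6
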