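import Pool.Agent.MJ6.Prob

/-! One step of the pair process and the decay of the disagreement probability. -/

set_option autoImplicit false

namespace Pool.Agent.MJ6

open MeasureTheory Set Pool.Agent.Helper55.Vote

variable {ε δ : ℝ}

theorem Rz_mono {z z' : ℤ} (h : z ≤ z') (t : ℕ) : Rz z t ⊆ Rz z' t := by
  intro c hc
  rcases hc with hc | ⟨h1, h2⟩
  · exact Or.inl hc
  · exact Or.inr ⟨h1, h2.trans_le h⟩

/-- the law of the new symbol `x` when the median is `m` -/
noncomputable def nw (ε δ : ℝ) : S → S → ℝ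
  | .z, .z => ε + (1 - ε - δ)
  | .z, .s => 0
  | .z, .o => δ
  | .s, .z => ε
  | .s, .s => 1 - ε - δ
  | .s, .o => δ
  | .o, .z => ε
  | .o, .s => 0
  | .o, .o => δ + (1 - ε - δ)

theorem ns_law (hε : 0 ≤ ε) (hδ : 0 ≤ δ) (h : ε + δ ≤ 1) (m x : S) :
    (law ε δ).real {o | ns m o = x} = nw ε δ m x := by
  rw [law_real hε hδ h]
  cases m <;> cases x <;> simp [Set.indicator, ns, nw] <;> ring

/-- one step: the expectation of a tree along the new symbols, on an event of the past on which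
the medians are known -/
theorem Ex_step (hε : 0 ≤ ε) (hδ : 0 ≤ δ) (h1 : ε + δ ≤ 1) {p : ℤ} (hp : 0 < p) (t : ℕ) :
    ∀ {d : ℕ} {τ : T}, τ.dp d → ∀ {z : ℤ} {A : Set Om} {m : ℕ → S}, FL (Rz z t) A →
    (∀ ω ∈ A, ∀ k < d, med (U p t (z + k * p - p) ω) (U p t (z + k * p) ω)
      (U p t (z + k * p + p) ω) = m k) →
    Ex (Pm (law ε δ)) τ A (fun k => U p (t + 1) (z + k * p)) =
      τ.gv ε δ (1 - ε - δ) m * (Pm (law ε δ)).real A
  | 0, τ, h, z, A, m, _, _ => by
    obtain ⟨x, rfl⟩ := T.dp_zero h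
    rfl
  | d + 1, τ, h, z, A, m, hA, hm => by
    have hP : IsProbabilityMeasure (law ε δ) := law_prob hε hδ h1
    obtain ⟨a, b, c, rfl, ha, hb, hc⟩ := T.dp_succ h
    -- the event of the first new symbol
    have e0 : ∀ x, A ∩ {ω | U p (t + 1) (z + (0 : ℕ) * p) ω = x} =
        A ∩ {ω | ω (z, (t : ℤ)) ∈ {o | ns (m 0) o = x}} := by
      intro x
      ext ω
      simp only [mem_inter_iff, mem_ofPred_eq, and_congr_right_iff]
      intro hω
      have h0 := hm ω hω 0 (by omega)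
      rw [Nat.cast_zero, zero_mul, add_zero] at h0 ⊢
      rw [U_succ hp, h0]
    have hF : ∀ x, FL (Rz (z + p) t) (A ∩ {ω | ω (z, (t : ℤ)) ∈ {o | ns (m 0) o = x}}) := by
      intro x
      refine (hA.mono (Rz_mono (by omega) t)).inter (FL.single _ ?_ _)
      exact Or.inr ⟨rfl, by show z < z + p; omega⟩
    have hR : ∀ x, (Pm (law ε δ)).real (A ∩ {ω | ω (z, (t : ℤ)) ∈ {o | ns (m 0) o = x}}) =
        (Pm (law ε δ)).real A * (law ε δ).real {o | ns (m 0) o = x} := by
      intro x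
      have hd : Disjoint (Rz z t) {((z, (t : ℤ)) : ℤ × ℤ)} := by
        rw [Set.disjoint_singleton_right]
        rintro (h | ⟨-, h⟩)
        · exact absurd h (lt_irrefl _)
        · exact absurd h (lt_irrefl _)
      rw [FL.indep _ hA (FL.single _ (mem_singleton _) _) hd, prob_single]
    have hm' : ∀ x, ∀ ω ∈ A ∩ {ω | ω (z, (t : ℤ)) ∈ {o | ns (m 0) o = x}}, ∀ k < d,
        med (U p t (z + p + k * p - p) ω) (U p t (z + p + k * p) ω)
          (U p t (z + p + k * p + p) ω) = sh m k := by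
      intro x ω hω k hk
      have := hm ω hω.1 (k + 1) (by omega)
      have e : z + ((k + 1 : ℕ) : ℤ) * p = z + p + k * p := by push_cast; ring
      rw [e] at this
      exact this
    have hV : sh (fun k : ℕ => U p (t + 1) (z + (k : ℤ) * p)) =
        fun k : ℕ => U p (t + 1) (z + p + (k : ℤ) * p) := by
      funext k
      show U p (t + 1) (z + ((k + 1 : ℕ) : ℤ) * p) = _
      have e : z + ((k + 1 : ℕ) : ℤ) * p = z + p + k * p := by push_cast; ring
      rw [e]
    have eEx : Ex (Pm (law ε δ)) (.n a b c) A (fun k => U p (t + 1) (z + k * p)) =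
        Ex (Pm (law ε δ)) a (A ∩ {ω | U p (t + 1) (z + (0 : ℕ) * p) ω = .z})
          (sh fun k : ℕ => U p (t + 1) (z + (k : ℤ) * p)) +
        Ex (Pm (law ε δ)) b (A ∩ {ω | U p (t + 1) (z + (0 : ℕ) * p) ω = .s})
          (sh fun k : ℕ => U p (t + 1) (z + (k : ℤ) * p)) +
        Ex (Pm (law ε δ)) c (A ∩ {ω | U p (t + 1) (z + (0 : ℕ) * p) ω = .o})
          (sh fun k : ℕ => U p (t + 1) (z + (k : ℤ) * p)) := rfl
    rw [eEx, hV, e0, e0, e0, Ex_step hε hδ h1 hp t ha (hF _) (hm' _),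
      Ex_step hε hδ h1 hp t hb (hF _) (hm' _), Ex_step hε hδ h1 hp t hc (hF _) (hm' _), hR, hR, hR,
      ns_law hε hδ h1, ns_law hε hδ h1, ns_law hε hδ h1]
    have eg : T.gv ε δ (1 - ε - δ) (.n a b c) m = ε * a.gv ε δ (1 - ε - δ) (sh m) +
      δ * c.gv ε δ (1 - ε - δ) (sh m) + (1 - ε - δ) * (match m 0 with
        | .z => a.gv ε δ (1 - ε - δ) (sh m)
        | .s => b.gv ε δ (1 - ε - δ) (sh m)
        | .o => c.gv ε δ (1 - ε - δ) (sh m)) := rfl
    rw [eg]
    cases m 0 <;> simp only [nw] <;> ring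

/-- the inequality which a weight function satisfies -/
def Good (w tau : ℕ) (P B : T) (ε δ : ℝ) : Prop :=
  P.dp w ∧ B.dp (w + 1) ∧ ∀ f : ℕ → S, P.gv ε δ (1 - ε - δ) (mf f) +
    ((B.ev f : ℝ) + (tt tau (f 3) : ℝ)) ≤ (P.ev (sh f) : ℝ) + (B.ev (sh f) : ℝ)

theorem main_ineq (hε : 0 ≤ ε) (hδ : 0 ≤ δ) (h1 : ε + δ ≤ 1) {p : ℤ} (hp : 0 < p) (t : ℕ) {w tau : ℕ}
    {P B : T} (hw : 2 ≤ w) (hG : Good w tau P B ε δ) (z : ℤ) : ∀ (r : ℕ), r ≤ w + 2 →
    ∀ (A : Set Om) (f : ℕ → S), FL (Rt t) A →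
    (∀ ω ∈ A, ∀ k < w + 2 - r, U p t (z + k * p) ω = f k) →
    Ex (Pm (law ε δ)) P A (fun k => U p (t + 1) (z + p + k * p)) +
      Ex (Pm (law ε δ)) B A (fun k => U p t (z + k * p)) +
      tau * (Pm (law ε δ)).real (A ∩ {ω | U p t (z + (3 : ℕ) * p) ω = .s}) ≤
    Ex (Pm (law ε δ)) P A (fun k => U p t (z + p + k * p)) +
      Ex (Pm (law ε δ)) B A (fun k => U p t (z + p + k * p))
  | 0, _, A, f, hA, hf => by
    have hP : IsProbabilityMeasure (law ε δ) := law_prob hε hδ h1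
    obtain ⟨hPd, hBd, hg⟩ := hG
    have hsub : Rt t ⊆ Rz (z + p) t := fun c hc => Or.inl hc
    have eA : ∀ k : ℕ, z + p + (k : ℤ) * p - p = z + k * p := fun k => by ring
    have eB : ∀ k : ℕ, z + p + (k : ℤ) * p = z + ((k + 1 : ℕ) : ℤ) * p := fun k => by
      push_cast; ring
    have eC : ∀ k : ℕ, z + p + (k : ℤ) * p + p = z + ((k + 2 : ℕ) : ℤ) * p := fun k => by
      push_cast; ring
    have s1 := Ex_step hε hδ h1 hp t hPd (z := z + p) (m := mf f) (hA.mono hsub) (by
      intro ω hω k hk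
      rw [eA, eC, eB, hf ω hω k (by omega), hf ω hω (k + 1) (by omega),
        hf ω hω (k + 2) (by omega)]
      rfl)
    have s2 : Ex (Pm (law ε δ)) B A (fun k => U p t (z + k * p)) =
        B.ev f * (Pm (law ε δ)).real A :=
      Ex_const _ hBd fun ω hω k hk => hf ω hω k (by omega)
    have s3 : Ex (Pm (law ε δ)) P A (fun k => U p t (z + p + k * p)) =
        P.ev (sh f) * (Pm (law ε δ)).real A :=
      Ex_const _ hPd fun ω hω k hk => by
        show U p t (z + p + k * p) ω = f (k + 1)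
        rw [eB]; exact hf ω hω (k + 1) (by omega)
    have s4 : Ex (Pm (law ε δ)) B A (fun k => U p t (z + p + k * p)) =
        B.ev (sh f) * (Pm (law ε δ)).real A :=
      Ex_const _ hBd fun ω hω k hk => by
        show U p t (z + p + k * p) ω = f (k + 1)
        rw [eB]; exact hf ω hω (k + 1) (by omega)
    have s5 : (tau : ℝ) * (Pm (law ε δ)).real (A ∩ {ω | U p t (z + (3 : ℕ) * p) ω = .s}) =
        (tt tau (f 3) : ℝ) * (Pm (law ε δ)).real A := by
      have h3 : ∀ ω ∈ A, U p t (z + (3 : ℕ) * p) ω = f 3 := fun ω hω => hf ω hω 3 (by omega)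
      cases hf3 : f 3 <;> rw [hf3] at h3
      · rw [inter_eq_empty_of h3 (by exact fun h => nomatch h)]
        simp [tt]
      · rw [inter_eq_of h3]
        rfl
      · rw [inter_eq_empty_of h3 (by exact fun h => nomatch h)]
        simp [tt]
    rw [s1, s2, s3, s4, s5]
    have := mul_le_mul_of_nonneg_right (hg f)
      (measureReal_nonneg (μ := Pm (law ε δ)) (s := A))
    linarith
  | r + 1, hr, A, f, hA, hf => by
    have hP : IsProbabilityMeasure (law ε δ) := law_prob hε hδ h1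
    set j := w + 2 - (r + 1) with hj
    have hX := U_FS p t (z + (j : ℤ) * p)
    have hXm : ∀ x, MeasurableSet {ω | U p t (z + (j : ℤ) * p) ω = x} := fun x => (hX x).meas
    have key : ∀ x, _ := fun x => main_ineq hε hδ h1 hp t hw hG z r (by omega)
      (A ∩ {ω | U p t (z + (j : ℤ) * p) ω = x}) (fun k => if k = j then x else f k)
      (hA.inter (hX x)) (by
        rintro ω ⟨hω, hx⟩ k hk
        by_cases hkj : k = j
        · rw [if_pos hkj, hkj]; exact hx
        · rw [if_neg hkj]; exact hf ω hω k (by omega))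
    have k1 := key .z
    have k2 := key .s
    have k3 := key .o
    rw [Ex_split _ hXm P A, Ex_split _ hXm B A, Ex_split _ hXm P A (fun k => U p t (z + p + k * p)),
      Ex_split _ hXm B A (fun k => U p t (z + p + k * p)),
      real_split _ (A := A ∩ {ω | U p t (z + (3 : ℕ) * p) ω = .s}) hXm]
    simp only [inter_right_comm A {ω | U p t (z + (3 : ℕ) * p) ω = .s}]
    linarith

/-- the expectation along the pair process does not depend on the position -/
theorem Ex_trans (μ₀ : Measure (Option Bool)) [IsProbabilityMeasure μ₀] (v : ℤ)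
    (τ : T) : ∀ (A : Set Om) (V : ℕ → Om → S), MeasurableSet A →
    (∀ k x, MeasurableSet {ω | V k ω = x}) →
    Ex (Pm μ₀) τ (shift (v, 0) ⁻¹' A) (fun k ω => V k (shift (v, 0) ω)) = Ex (Pm μ₀) τ A V := by
  induction τ with
  | l x =>
    intro A V hA _
    simp only [Ex]
    rw [measure_shift μ₀ (v, 0) hA]
  | n a b c iha ihb ihc =>
    intro A V hA hV
    simp only [Ex]
    rw [← iha (A ∩ {ω | V 0 ω = .z}) (sh V) (hA.inter (hV 0 _)) (fun k x => hV (k + 1) x),
      ← ihb (A ∩ {ω | V 0 ω = .s}) (sh V) (hA.inter (hV 0 _)) (fun k x => hV (k + 1) x),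
      ← ihc (A ∩ {ω | V 0 ω = .o}) (sh V) (hA.inter (hV 0 _)) (fun k x => hV (k + 1) x)]
    rfl

theorem U_shift (p : ℤ) (t : ℕ) (i v : ℤ) (ω : Om) :
    U p t i (shift (v, 0) ω) = U p t (i + v) ω := by
  unfold U
  rw [run_shift, run_shift, add_zero]

theorem Ex_pos (μ₀ : Measure (Option Bool)) [IsProbabilityMeasure μ₀] (p : ℤ) (t : ℕ) (z : ℤ)
    (τ : T) : Ex (Pm μ₀) τ Set.univ (fun k => U p t (z + k * p)) =
      Ex (Pm μ₀) τ Set.univ (fun k => U p t (0 + k * p)) := by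
  have h := Ex_trans μ₀ z τ Set.univ (fun k => U p t (0 + k * p)) MeasurableSet.univ
    (fun k x => (U_FS p t _ x).meas)
  rw [← h, preimage_univ]
  congr 1
  funext k ω
  rw [U_shift]
  congr 1
  ring

theorem prob_star (μ₀ : Measure (Option Bool)) [IsProbabilityMeasure μ₀] (p : ℤ) (t : ℕ)
    (i : ℤ) : (Pm μ₀).real {ω | U p t i ω = .s} = D μ₀ (Np p) t := by
  rw [← prob_Dis μ₀ (Np p) t i]
  congr 1
  ext ω
  simp only [Dis, mem_ofPred_eq, U]
  have := run_le p t i ω
  revert this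
  cases run (Np p) ω 0 (fun _ => false) t i <;> cases run (Np p) ω 0 (fun _ => true) t i <;>
    simp [sy]

/-- a weight function forces the disagreement probability to zero -/
theorem D_tendsto (hε : 0 ≤ ε) (hδ : 0 ≤ δ) (h1 : ε + δ ≤ 1) {p : ℤ} (hp : 0 < p) {w tau : ℕ}
    {P B : T} (hw : 2 ≤ w) (htau : 0 < tau) (hG : Good w tau P B ε δ) :
    Filter.Tendsto (fun t => D (law ε δ) (Np p) t) Filter.atTop (nhds 0) := by
  have hP : IsProbabilityMeasure (law ε δ) := law_prob hε hδ h1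
  set Φ : ℕ → ℝ := fun t => Ex (Pm (law ε δ)) P Set.univ (fun k => U p t (0 + k * p)) with hΦ
  have step : ∀ t, Φ (t + 1) + tau * D (law ε δ) (Np p) t ≤ Φ t := by
    intro t
    have h := main_ineq hε hδ h1 hp t hw hG 0 (w + 2) le_rfl Set.univ (fun _ => .z) (FL.univ _)
      (fun ω _ k hk => by omega)
    have e1 : Ex (Pm (law ε δ)) P Set.univ (fun k => U p (t + 1) (0 + p + k * p)) = Φ (t + 1) :=
      Ex_pos _ p (t + 1) (0 + p) P
    have e2 : Ex (Pm (law ε δ)) P Set.univ (fun k => U p t (0 + p + k * p)) = Φ t :=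
      Ex_pos _ p t (0 + p) P
    have e3 : Ex (Pm (law ε δ)) B Set.univ (fun k => U p t (0 + p + k * p)) =
        Ex (Pm (law ε δ)) B Set.univ (fun k => U p t (0 + k * p)) := Ex_pos _ p t (0 + p) B
    rw [e1, e2, e3, univ_inter, prob_star] at h
    linarith
  have hΦ0 : ∀ t, 0 ≤ Φ t := fun t => Ex_nonneg _ _ _ _
  have hD0 : ∀ t, 0 ≤ D (law ε δ) (Np p) t := fun t => measureReal_nonneg
  have hanti := D_antitone (law ε δ) (Np p)
  have hsum : ∀ n : ℕ, Φ n + tau * (n * D (law ε δ) (Np p) n) ≤ Φ 0 := by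
    intro n
    induction n with
    | zero => simp
    | succ n ih =>
      have h2 := step n
      have h3 : D (law ε δ) (Np p) (n + 1) ≤ D (law ε δ) (Np p) n := hanti (Nat.le_succ n)
      have h4 : ((n + 1 : ℕ) : ℝ) * D (law ε δ) (Np p) (n + 1) ≤
          n * D (law ε δ) (Np p) n + D (law ε δ) (Np p) n := by
        push_cast
        nlinarith [Nat.cast_nonneg (α := ℝ) n]
      have h5 : (0 : ℝ) ≤ tau := Nat.cast_nonneg _
      nlinarith [mul_le_mul_of_nonneg_left h4 h5]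
  have htau' : (0 : ℝ) < tau := by exact_mod_cast htau
  have hbound : ∀ n : ℕ, D (law ε δ) (Np p) (n + 1) ≤ (Φ 0 / tau) / ((n : ℝ) + 1) := by
    intro n
    have h2 := hsum (n + 1)
    have h3 := hΦ0 (n + 1)
    rw [le_div_iff₀ (by positivity), le_div_iff₀ htau']
    push_cast at h2
    nlinarith
  have hlim : Filter.Tendsto (fun n : ℕ => (Φ 0 / tau) / ((n : ℝ) + 1)) Filter.atTop
      (nhds 0) := by
    have h2 := (tendsto_one_div_add_atTop_nhds_zero_nat (𝕜 := ℝ)).const_mul (Φ 0 / tau)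
    rw [mul_zero] at h2
    refine h2.congr fun n => ?_
    rw [mul_one_div]
  rw [← Filter.tendsto_add_atTop_iff_nat 1]
  exact squeeze_zero (fun n => hD0 _) hbound hlim

end Pool.Agent.MJ6
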