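import Pool.Agent.MJ6.Cert
import Pool.Agent.Helper55.Vote.Crit

/-! The pair process of the noisy majority voting with three equally spaced neighbours: a weight
function on windows forces the disagreement probability to zero. -/

set_option autoImplicit false

namespace Pool.Agent.MJ6

open MeasureTheory Set Pool.Agent.Helper55.Vote

/-- the state of a site of the pair process -/
def sy (x0 x1 : Bool) : S := if x0 then .o else if x1 then .s else .z

/-- the neighbourhood -/
def Np (p : ℤ) : Finset ℤ := {-p, 0, p}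

/-- the pair process -/
def U (p : ℤ) (t : ℕ) (i : ℤ) (ω : Om) : S :=
  sy (run (Np p) ω 0 (fun _ => false) t i) (run (Np p) ω 0 (fun _ => true) t i)

/-- majority of three -/
def maj3 (a b c : Bool) : Bool := (a && b) || (b && c) || (a && c)

theorem maj_Np {p : ℤ} (hp : 0 < p) (x : ℤ → Bool) (i : ℤ) :
    maj (Np p) x i = maj3 (x (i - p)) (x i) (x (i + p)) := by
  have h1 : (-p : ℤ) ∉ ({0, p} : Finset ℤ) := by
    simp only [Finset.mem_insert, Finset.mem_singleton]; omega
  have h2 : (0 : ℤ) ∉ ({p} : Finset ℤ) := by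
    simp only [Finset.mem_singleton]; omega
  have hc : (Np p).card = 3 := by
    unfold Np
    rw [Finset.card_insert_of_notMem h1, Finset.card_insert_of_notMem h2, Finset.card_singleton]
  unfold maj
  rw [hc, Finset.card_filter]
  unfold Np
  rw [Finset.sum_insert h1, Finset.sum_insert h2, Finset.sum_singleton, add_zero,
    ← sub_eq_add_neg]
  cases x (i - p) <;> cases x i <;> cases x (i + p) <;> simp [maj3]

theorem med_sy (a b c a' b' c' : Bool) (h1 : a ≤ a') (h2 : b ≤ b') (h3 : c ≤ c') :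
    med (sy a a') (sy b b') (sy c c') = sy (maj3 a b c) (maj3 a' b' c') := by
  revert h1 h2 h3
  cases a <;> cases b <;> cases c <;> cases a' <;> cases b' <;> cases c' <;>
    simp [med, sy, maj3]

theorem run_le (p : ℤ) (t : ℕ) (i : ℤ) (ω : Om) :
    run (Np p) ω 0 (fun _ => false) t i ≤ run (Np p) ω 0 (fun _ => true) t i :=
  run_mono (Np p) ω 0 (fun _ => Bool.false_le _) t i

/-- the effect of one noise variable on the median `m` -/
def ns (m : S) : Option Bool → S
  | none => m
  | some true => .o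
  | some false => .z

theorem U_succ {p : ℤ} (hp : 0 < p) (t : ℕ) (i : ℤ) (ω : Om) :
    U p (t + 1) i ω = ns (med (U p t (i - p) ω) (U p t i ω) (U p t (i + p) ω)) (ω (i, t)) := by
  unfold U
  rw [med_sy _ _ _ _ _ _ (run_le p t _ ω) (run_le p t _ ω) (run_le p t _ ω), ← maj_Np hp,
    ← maj_Np hp, run_succ, run_succ]
  unfold step
  simp only [zero_add]
  rcases ω (i, (t : ℤ)) with _ | _ | _ <;> rfl

/-- all level sets are events of the noise in `R` -/
def FS (R : Set (ℤ × ℤ)) (X : Om → S) : Prop := ∀ x, FL R {ω | X ω = x}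

/-- the noise before time `t` -/
def Rt (t : ℕ) : Set (ℤ × ℤ) := {c | c.2 < t}

/-- the noise before the site `z` at time `t` -/
def Rz (z : ℤ) (t : ℕ) : Set (ℤ × ℤ) := {c | c.2 < t ∨ (c.2 = t ∧ c.1 < z)}

theorem U_FS (p : ℤ) (t : ℕ) (i : ℤ) : FS (Rt t) (U p t i) := by
  intro x
  have hR : {c : ℤ × ℤ | (0 : ℤ) ≤ c.2 ∧ c.2 < 0 + (t : ℤ)} ⊆ Rt t := by
    intro c hc
    simp only [mem_ofPred_eq] at hc
    show c.2 < t
    omega
  have hF : ∀ b, FL (Rt t) {ω | run (Np p) ω 0 (fun _ => false) t i = b} := fun b =>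
    (FL.run (Np p) 0 _ t i b).mono hR
  have hT : ∀ b, FL (Rt t) {ω | run (Np p) ω 0 (fun _ => true) t i = b} := fun b =>
    (FL.run (Np p) 0 _ t i b).mono hR
  have key : {ω | U p t i ω = x} =
      (({ω | run (Np p) ω 0 (fun _ => false) t i = false} ∩
        {ω | run (Np p) ω 0 (fun _ => true) t i = false}) ∩ {ω : Om | sy false false = x}) ∪
      (({ω | run (Np p) ω 0 (fun _ => false) t i = false} ∩
        {ω | run (Np p) ω 0 (fun _ => true) t i = true}) ∩ {ω : Om | sy false true = x}) ∪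
      ({ω | run (Np p) ω 0 (fun _ => false) t i = true} ∩ {ω : Om | S.o = x}) := by
    ext ω
    simp only [U, mem_ofPred_eq, mem_union, mem_inter_iff]
    cases run (Np p) ω 0 (fun _ => false) t i <;> cases run (Np p) ω 0 (fun _ => true) t i <;>
      simp [sy]
  have hc : ∀ q : Prop, FL (Rt t) {_ω : Om | q} := by
    intro q
    by_cases hq : q
    · have : {_ω : Om | q} = Set.univ := by ext; simp [hq]
      rw [this]; exact FL.univ _
    · have : {_ω : Om | q} = ∅ := by ext; simp [hq]
      rw [this]; exact FL.empty _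
  rw [key]
  exact ((((hF false).inter (hT false)).inter (hc _)).union
    (((hF false).inter (hT true)).inter (hc _))).union ((hF true).inter (hc _))

section Ex

variable (μ : Measure Om) [IsProbabilityMeasure μ]

/-- expectation of a tree along a sequence of random symbols, on the event `A` -/
noncomputable def Ex : T → Set Om → (ℕ → Om → S) → ℝ
  | .l x, A, _ => x * μ.real A
  | .n a b c, A, V => Ex a (A ∩ {ω | V 0 ω = .z}) (sh V) + Ex b (A ∩ {ω | V 0 ω = .s}) (sh V) +
      Ex c (A ∩ {ω | V 0 ω = .o}) (sh V)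

theorem real_split {A : Set Om} {X : Om → S} (hX : ∀ x, MeasurableSet {ω | X ω = x}) :
    μ.real A = μ.real (A ∩ {ω | X ω = .z}) + μ.real (A ∩ {ω | X ω = .s}) +
      μ.real (A ∩ {ω | X ω = .o}) := by
  have h1 := measureReal_inter_add_sdiff (μ := μ) (s := A) (hX .z)
  have h2 := measureReal_inter_add_sdiff (μ := μ) (s := A \ {ω | X ω = .z}) (hX .s)
  have e1 : (A \ {ω | X ω = .z}) ∩ {ω | X ω = .s} = A ∩ {ω | X ω = .s} := by
    ext ω
    simp only [mem_inter_iff, mem_sdiff, mem_ofPred_eq]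
    constructor
    · rintro ⟨⟨h, _⟩, h'⟩; exact ⟨h, h'⟩
    · rintro ⟨h, h'⟩; exact ⟨⟨h, by rw [h']; exact fun h => nomatch h⟩, h'⟩
  have e2 : (A \ {ω | X ω = .z}) \ {ω | X ω = .s} = A ∩ {ω | X ω = .o} := by
    ext ω
    simp only [mem_inter_iff, mem_sdiff, mem_ofPred_eq]
    constructor
    · rintro ⟨⟨h, h1⟩, h2⟩
      refine ⟨h, ?_⟩
      cases hX : X ω
      · exact absurd hX h1
      · exact absurd hX h2
      · rfl
    · rintro ⟨h, h'⟩
      exact ⟨⟨h, by rw [h']; exact fun h => nomatch h⟩, by rw [h']; exact fun h => nomatch h⟩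
  rw [e1, e2] at h2
  rw [← h1, ← h2]
  ring

theorem Ex_split {X : Om → S} (hX : ∀ x, MeasurableSet {ω | X ω = x}) (t : T) (A : Set Om)
    (V : ℕ → Om → S) : Ex μ t A V = Ex μ t (A ∩ {ω | X ω = .z}) V +
      Ex μ t (A ∩ {ω | X ω = .s}) V + Ex μ t (A ∩ {ω | X ω = .o}) V := by
  induction t generalizing A V with
  | l x =>
    simp only [Ex]
    rw [real_split μ (A := A) hX]
    ring
  | n a b c iha ihb ihc =>
    simp only [Ex]
    rw [iha (A ∩ {ω | V 0 ω = .z}), ihb (A ∩ {ω | V 0 ω = .s}), ihc (A ∩ {ω | V 0 ω = .o})]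
    simp only [inter_right_comm A]
    ring

theorem Ex_empty (t : T) (V : ℕ → Om → S) : Ex μ t ∅ V = 0 := by
  induction t generalizing V with
  | l x => simp [Ex]
  | n a b c iha ihb ihc => simp only [Ex, empty_inter, iha, ihb, ihc, add_zero]

theorem Ex_nonneg (t : T) (A : Set Om) (V : ℕ → Om → S) : 0 ≤ Ex μ t A V := by
  induction t generalizing A V with
  | l x => exact mul_nonneg (Nat.cast_nonneg _) measureReal_nonneg
  | n a b c iha ihb ihc => exact add_nonneg (add_nonneg (iha _ _) (ihb _ _)) (ihc _ _)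

theorem inter_eq_of {A : Set Om} {X : Om → S} {x : S} (h : ∀ ω ∈ A, X ω = x) :
    A ∩ {ω | X ω = x} = A := by
  ext ω
  simp only [mem_inter_iff, mem_ofPred_eq, and_iff_left_iff_imp]
  exact h ω

theorem inter_eq_empty_of {A : Set Om} {X : Om → S} {x y : S} (h : ∀ ω ∈ A, X ω = x)
    (hxy : x ≠ y) : A ∩ {ω | X ω = y} = ∅ := by
  ext ω
  simp only [mem_inter_iff, mem_ofPred_eq, mem_empty_iff_false, iff_false, not_and]
  intro h1 h2
  exact hxy ((h ω h1).symm.trans h2)

theorem Ex_const : ∀ {d : ℕ} {t : T}, t.dp d → ∀ {A : Set Om} {V : ℕ → Om → S} {f : ℕ → S},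
    (∀ ω ∈ A, ∀ k < d, V k ω = f k) → Ex μ t A V = t.ev f * μ.real A
  | 0, t, h, A, V, f, _ => by
    obtain ⟨x, rfl⟩ := T.dp_zero h
    rfl
  | d + 1, t, h, A, V, f, hc => by
    have h0 : ∀ ω ∈ A, V 0 ω = f 0 := fun ω hω => hc ω hω 0 (by omega)
    have h1 : ∀ ω ∈ A, ∀ k < d, sh V k ω = sh f k := fun ω hω k hk => hc ω hω (k + 1) (by omega)
    rw [T.ev_ch h]
    obtain ⟨a, b, c, rfl, ha, hb, hc'⟩ := T.dp_succ h
    simp only [Ex]
    cases hf : f 0 <;> rw [hf] at h0
    · rw [inter_eq_of h0, inter_eq_empty_of h0 (by exact fun h => nomatch h),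
        inter_eq_empty_of h0 (by exact fun h => nomatch h), Ex_empty, Ex_empty, add_zero,
        add_zero, Ex_const ha h1]
      rfl
    · rw [inter_eq_of h0, inter_eq_empty_of h0 (by exact fun h => nomatch h),
        inter_eq_empty_of h0 (by exact fun h => nomatch h), Ex_empty, Ex_empty, add_zero,
        zero_add, Ex_const hb h1]
      rfl
    · rw [inter_eq_of h0, inter_eq_empty_of h0 (by exact fun h => nomatch h),
        inter_eq_empty_of h0 (by exact fun h => nomatch h), Ex_empty, Ex_empty, zero_add,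
        zero_add, Ex_const hc' h1]
      rfl

end Ex

theorem law_real {ε δ : ℝ} (hε : 0 ≤ ε) (hδ : 0 ≤ δ) (h : ε + δ ≤ 1) (s : Set (Option Bool)) :
    (law ε δ).real s = (1 - ε - δ) * s.indicator 1 none + δ * s.indicator 1 (some true) +
      ε * s.indicator 1 (some false) := by
  classical
  have h0 : 0 ≤ 1 - ε - δ := by linarith
  have hm : MeasurableSet s := (Set.toFinite s).measurableSet
  have key : (law ε δ) s = ENNReal.ofReal (1 - ε - δ) * s.indicator 1 none +
      ENNReal.ofReal δ * s.indicator 1 (some true) + ENNReal.ofReal ε *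
      s.indicator 1 (some false) := by
    unfold law
    simp only [Measure.coe_add, Measure.coe_smul, Pi.add_apply, Pi.smul_apply, smul_eq_mul,
      Measure.dirac_apply' _ hm]
  have hind : ∀ o : Option Bool, (s.indicator 1 o : ENNReal) ≠ ⊤ := by
    intro o
    by_cases ho : o ∈ s
    · rw [indicator_of_mem ho]; simp
    · rw [indicator_of_notMem ho]; simp
  have hreal : ∀ o : Option Bool, (s.indicator 1 o : ENNReal).toReal = s.indicator 1 o := by
    intro o
    by_cases ho : o ∈ s
    · rw [indicator_of_mem ho, indicator_of_mem ho]; simp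
    · rw [indicator_of_notMem ho, indicator_of_notMem ho]; simp
  rw [Measure.real, key, ENNReal.toReal_add, ENNReal.toReal_add, ENNReal.toReal_mul,
    ENNReal.toReal_mul, ENNReal.toReal_mul, ENNReal.toReal_ofReal h0, ENNReal.toReal_ofReal hδ,
    ENNReal.toReal_ofReal hε, hreal, hreal, hreal]
  · exact ENNReal.mul_ne_top ENNReal.ofReal_ne_top (hind _)
  · exact ENNReal.mul_ne_top ENNReal.ofReal_ne_top (hind _)
  · exact ENNReal.add_ne_top.2 ⟨ENNReal.mul_ne_top ENNReal.ofReal_ne_top (hind _),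
      ENNReal.mul_ne_top ENNReal.ofReal_ne_top (hind _)⟩
  · exact ENNReal.mul_ne_top ENNReal.ofReal_ne_top (hind _)

end Pool.Agent.MJ6
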