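import Mathlib
import Pool.Agent.MJ6.Calc

/-! Soundness of the tree computations. -/

set_option autoImplicit false

namespace Pool.Agent.MJ6

open Polynomial

/-- shift of a sequence -/
def sh {α : Type} (f : ℕ → α) : ℕ → α := fun k => f (k + 1)

/-- value of a tree along a sequence of symbols -/
def T.ev : T → (ℕ → S) → ℕ
  | .l x, _ => x
  | .n a b c, f => match f 0 with
    | .z => a.ev (sh f)
    | .s => b.ev (sh f)
    | .o => c.ev (sh f)

/-- all leaves are at depth `d` -/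
def T.dp : ℕ → T → Prop
  | 0, .l _ => True
  | 0, .n _ _ _ => False
  | _ + 1, .l _ => False
  | d + 1, .n a b c => T.dp d a ∧ T.dp d b ∧ T.dp d c

/-- expectation of a tree when each symbol is kept with weight `R`, set to `0` with weight `E`
and to `1` with weight `D` -/
def T.gv {A : Type} [CommSemiring A] (E D R : A) : T → (ℕ → S) → A
  | .l x, _ => (x : A)
  | .n a b c, f => E * a.gv E D R (sh f) + D * c.gv E D R (sh f) + R * (match f 0 with
    | .z => a.gv E D R (sh f)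
    | .s => b.gv E D R (sh f)
    | .o => c.gv E D R (sh f))

/-- the sequence of medians of three consecutive symbols -/
def mf (f : ℕ → S) : ℕ → S := fun k => med (f k) (f (k + 1)) (f (k + 2))

theorem seqN_eq {α : Type} (x : ℕ) (k : ℕ → α) : seqN x k = k x := by
  cases x <;> rfl

theorem T.force_eq {α : Type} (t : T) (k : T → α) : t.force k = k t := by
  induction t generalizing k with
  | l x => exact seqN_eq _ _
  | n a b c iha ihb ihc => simp only [T.force, iha, ihb, ihc]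

/-- the pure version of `trK` -/
def T.tr (E D R : ℕ) : T → T
  | .l x => .l x
  | .n a b c => .n (T.cmb E D R (a.tr E D R) (c.tr E D R) (a.tr E D R))
      (T.cmb E D R (a.tr E D R) (c.tr E D R) (b.tr E D R))
      (T.cmb E D R (a.tr E D R) (c.tr E D R) (c.tr E D R))

theorem T.trK_eq {α : Type} (E D R : ℕ) (t : T) (k : T → α) : T.trK E D R t k = k (t.tr E D R) := by
  induction t generalizing k with
  | l x => rfl
  | n a b c iha ihb ihc => simp only [T.trK, iha, ihb, ihc, T.force_eq, T.tr]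

theorem T.okB_dp {m : ℕ} : ∀ {d : ℕ} {t : T}, t.okB m d = true → t.dp d
  | 0, .l _, _ => trivial
  | 0, .n _ _ _, h => by simp [T.okB] at h
  | _ + 1, .l _, h => by simp [T.okB] at h
  | d + 1, .n a b c, h => by
    simp only [T.okB, Bool.and_eq_true] at h
    exact ⟨T.okB_dp h.1.1, T.okB_dp h.1.2, T.okB_dp h.2⟩

theorem T.dp_zero {t : T} (h : t.dp 0) : ∃ x, t = .l x := by
  cases t with
  | l x => exact ⟨x, rfl⟩
  | n a b c => exact h.elim

theorem T.dp_succ {d : ℕ} {t : T} (h : t.dp (d + 1)) :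
    ∃ a b c, t = .n a b c ∧ a.dp d ∧ b.dp d ∧ c.dp d := by
  cases t with
  | l x => exact h.elim
  | n a b c => exact ⟨a, b, c, rfl, h⟩

theorem T.ch_dp {d : ℕ} {t : T} (h : t.dp (d + 1)) (x : S) : (t.ch x).dp d := by
  obtain ⟨a, b, c, rfl, ha, hb, hc⟩ := T.dp_succ h
  cases x
  · exact ha
  · exact hb
  · exact hc

theorem T.ev_ch {d : ℕ} {t : T} (h : t.dp (d + 1)) (f : ℕ → S) :
    t.ev f = (t.ch (f 0)).ev (sh f) := by
  obtain ⟨a, b, c, rfl, -⟩ := T.dp_succ h
  show (match f 0 with | .z => a.ev (sh f) | .s => b.ev (sh f) | .o => c.ev (sh f)) = _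
  cases f 0 <;> rfl

theorem T.ev_zero {t : T} (h : t.dp 0) (f : ℕ → S) : t.ev f = t.val := by
  obtain ⟨x, rfl⟩ := T.dp_zero h
  rfl

theorem T.cmb_dp (E D R : ℕ) : ∀ {d : ℕ} {a c x : T}, a.dp d → c.dp d → x.dp d →
    (T.cmb E D R a c x).dp d
  | 0, a, c, x, ha, hc, hx => by
    obtain ⟨a, rfl⟩ := T.dp_zero ha
    obtain ⟨c, rfl⟩ := T.dp_zero hc
    obtain ⟨x, rfl⟩ := T.dp_zero hx
    trivial
  | d + 1, a, c, x, ha, hc, hx => by
    obtain ⟨a1, a2, a3, rfl, h1, h2, h3⟩ := T.dp_succ ha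
    obtain ⟨c1, c2, c3, rfl, g1, g2, g3⟩ := T.dp_succ hc
    obtain ⟨x1, x2, x3, rfl, k1, k2, k3⟩ := T.dp_succ hx
    exact ⟨T.cmb_dp E D R h1 g1 k1, T.cmb_dp E D R h2 g2 k2, T.cmb_dp E D R h3 g3 k3⟩

theorem T.tr_dp (E D R : ℕ) : ∀ {d : ℕ} {t : T}, t.dp d → (t.tr E D R).dp d
  | 0, t, h => by
    obtain ⟨x, rfl⟩ := T.dp_zero h
    trivial
  | d + 1, t, h => by
    obtain ⟨a, b, c, rfl, ha, hb, hc⟩ := T.dp_succ h
    have ha := T.tr_dp E D R ha
    have hb := T.tr_dp E D R hb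
    have hc := T.tr_dp E D R hc
    exact ⟨T.cmb_dp E D R ha hc ha, T.cmb_dp E D R ha hc hb, T.cmb_dp E D R ha hc hc⟩

theorem T.cmb_ev (E D R : ℕ) : ∀ {d : ℕ} {a c x : T}, a.dp d → c.dp d → x.dp d →
    ∀ f : ℕ → S, (T.cmb E D R a c x).ev f = E * a.ev f + D * c.ev f + R * x.ev f
  | 0, a, c, x, ha, hc, hx, f => by
    obtain ⟨a, rfl⟩ := T.dp_zero ha
    obtain ⟨c, rfl⟩ := T.dp_zero hc
    obtain ⟨x, rfl⟩ := T.dp_zero hx
    rfl
  | d + 1, a, c, x, ha, hc, hx, f => by
    rw [T.ev_ch (T.cmb_dp E D R ha hc hx), T.ev_ch ha, T.ev_ch hc, T.ev_ch hx]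
    obtain ⟨a1, a2, a3, rfl, h1, h2, h3⟩ := T.dp_succ ha
    obtain ⟨c1, c2, c3, rfl, g1, g2, g3⟩ := T.dp_succ hc
    obtain ⟨x1, x2, x3, rfl, k1, k2, k3⟩ := T.dp_succ hx
    cases f 0
    · exact T.cmb_ev E D R h1 g1 k1 _
    · exact T.cmb_ev E D R h2 g2 k2 _
    · exact T.cmb_ev E D R h3 g3 k3 _

theorem T.tr_ev (E D R : ℕ) : ∀ {d : ℕ} {t : T}, t.dp d → ∀ f : ℕ → S,
    (t.tr E D R).ev f = t.gv E D R f
  | 0, t, h, f => by
    obtain ⟨x, rfl⟩ := T.dp_zero h
    simp [T.tr, T.ev, T.gv]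
  | d + 1, t, h, f => by
    obtain ⟨a, b, c, rfl, ha, hb, hc⟩ := T.dp_succ h
    have ha' := T.tr_dp E D R ha
    have hb' := T.tr_dp E D R hb
    have hc' := T.tr_dp E D R hc
    rw [T.ev_ch (T.tr_dp E D R h), T.gv, ← T.tr_ev E D R ha (sh f), ← T.tr_ev E D R hc (sh f),
      ← T.tr_ev E D R hb (sh f)]
    cases f 0
    · exact T.cmb_ev E D R ha' hc' ha' _
    · exact T.cmb_ev E D R ha' hc' hb' _
    · exact T.cmb_ev E D R ha' hc' hc' _

theorem T.gv_map {A B : Type} [CommSemiring A] [CommSemiring B] (φ : A →+* B) (E D R : A)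
    (t : T) (f : ℕ → S) : φ (t.gv E D R f) = t.gv (φ E) (φ D) (φ R) f := by
  induction t generalizing f with
  | l x => simp [T.gv]
  | n a b c iha ihb ihc =>
    rw [T.gv, T.gv, map_add, map_add, map_mul, map_mul, map_mul, iha, ihc]
    cases f 0
    · simp only [iha]
    · simp only [ihb]
    · simp only [ihc]

/-- scaling of the weights -/
theorem T.gv_smul {A : Type} [CommSemiring A] (L E D R : A) : ∀ {d : ℕ} {t : T}, t.dp d →
    ∀ f : ℕ → S, t.gv (L * E) (L * D) (L * R) f = L ^ d * t.gv E D R f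
  | 0, t, h, f => by
    obtain ⟨x, rfl⟩ := T.dp_zero h
    simp [T.gv]
  | d + 1, t, h, f => by
    obtain ⟨a, b, c, rfl, ha, hb, hc⟩ := T.dp_succ h
    rw [T.gv, T.gv, T.gv_smul L E D R ha, T.gv_smul L E D R hb, T.gv_smul L E D R hc]
    cases f 0 <;> ring

/-- bound of the expectation when the total weight is known -/
theorem T.gv_le {m : ℕ} (E D R : ℕ) : ∀ {d : ℕ} {t : T}, t.okB m d = true →
    ∀ f : ℕ → S, t.gv E D R f ≤ (E + D + R) ^ d * m
  | 0, .l x, h, f => by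
    simp only [T.okB] at h
    have : x < m := by simpa [Nat.blt] using h
    simp only [T.gv, Nat.cast_id, pow_zero, one_mul]
    exact this.le
  | 0, .n _ _ _, h, _ => by simp [T.okB] at h
  | _ + 1, .l _, h, _ => by simp [T.okB] at h
  | d + 1, .n a b c, h, f => by
    simp only [T.okB, Bool.and_eq_true] at h
    have ha := T.gv_le E D R h.1.1 (sh f)
    have hb := T.gv_le E D R h.1.2 (sh f)
    have hc := T.gv_le E D R h.2 (sh f)
    rw [T.gv]
    have hx : (match f 0 with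
      | .z => a.gv E D R (sh f)
      | .s => b.gv E D R (sh f)
      | .o => c.gv E D R (sh f)) ≤ (E + D + R) ^ d * m := by
      cases f 0
      · exact ha
      · exact hb
      · exact hc
    calc _ ≤ E * ((E + D + R) ^ d * m) + D * ((E + D + R) ^ d * m) +
        R * ((E + D + R) ^ d * m) := by gcongr
      _ = (E + D + R) ^ (d + 1) * m := by ring

end Pool.Agent.MJ6
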